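import Pool.Agent.W610.HY.Stm

/-! Project HY: integrability from small neighbourhoods. -/

set_option autoImplicit false

namespace Pool.Agent.W427.HY.MINK

open Pool.Agent.W610.HY MeasureTheory Set Metric Filter Topology

theorem real_bound (C t : ℝ) (ht : 0 ≤ t) : Real.posLog (Real.exp (C * t)) ≤ |C| * t := by
  rw [Real.posLog_apply, Real.log_exp]
  refine max_le (by positivity) ?_
  exact mul_le_mul_of_nonneg_right (le_abs_self C) ht

/-- the weights -/
noncomputable def wt (k : ℝ) (j : ℕ) : ℝ := ((1 / 2 : ℝ) ^ (j + 1)) ^ (-k)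

theorem wt_nonneg (k : ℝ) (j : ℕ) : 0 ≤ wt k j := by
  unfold wt
  positivity

theorem wt_mul (k ε : ℝ) (j : ℕ) :
    wt k j * ((1 / 2 : ℝ) ^ j) ^ (k + ε) = (1 / 2 : ℝ) ^ (-k) * ((1 / 2 : ℝ) ^ ε) ^ j := by
  unfold wt
  have hq : (0 : ℝ) < 1 / 2 := by norm_num
  rw [← Real.rpow_natCast (1 / 2 : ℝ) (j + 1), ← Real.rpow_mul hq.le,
    ← Real.rpow_natCast (1 / 2 : ℝ) j, ← Real.rpow_mul hq.le,
    ← Real.rpow_natCast ((1 / 2 : ℝ) ^ ε) j, ← Real.rpow_mul hq.le, ← Real.rpow_add hq,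
    ← Real.rpow_add hq]
  congr 1
  push_cast
  ring

theorem wt_bound (k : ℝ) (hk : 0 ≤ k) (d : ℝ) (hd : 0 < d) :
    ENNReal.ofReal (d ^ (-k)) ≤ 1 + ∑' j : ℕ,
      (if d ≤ (1 / 2 : ℝ) ^ j then ENNReal.ofReal (wt k j) else 0) := by
  rcases le_or_gt d 1 with h1 | h1
  · obtain ⟨j, hj1, hj2⟩ := exists_nat_pow_near_of_lt_one hd h1
      (by norm_num : (0 : ℝ) < 1 / 2) (by norm_num)
    refine le_trans ?_ (le_add_left (ENNReal.le_tsum j))
    rw [if_pos hj2]
    refine ENNReal.ofReal_le_ofReal ?_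
    unfold wt
    exact Real.rpow_le_rpow_of_nonpos (by positivity) hj1.le (by linarith)
  · refine le_trans ?_ (le_add_right le_rfl)
    rw [← ENNReal.ofReal_one]
    exact ENNReal.ofReal_le_ofReal (Real.rpow_le_one_of_one_le_of_nonpos h1.le (by linarith))

theorem lim0 (C e : ℝ) (he : 0 < e) :
    Tendsto (fun j : ℕ => ENNReal.ofReal (C * ((1 / 2 : ℝ) ^ j) ^ e)) atTop (𝓝 0) := by
  have hq : (0 : ℝ) < 1 / 2 := by norm_num
  have h1 : ∀ j : ℕ, ((1 / 2 : ℝ) ^ j) ^ e = ((1 / 2 : ℝ) ^ e) ^ j := by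
    intro j
    rw [← Real.rpow_natCast (1 / 2 : ℝ) j, ← Real.rpow_mul hq.le,
      ← Real.rpow_natCast ((1 / 2 : ℝ) ^ e) j, ← Real.rpow_mul hq.le, mul_comm]
  have h2 : (1 / 2 : ℝ) ^ e < 1 := Real.rpow_lt_one hq.le (by norm_num) he
  have h3 : Tendsto (fun j : ℕ => C * ((1 / 2 : ℝ) ^ j) ^ e) atTop (𝓝 (C * 0)) := by
    simp only [h1]
    exact (tendsto_pow_atTop_nhds_zero_of_lt_one (by positivity) h2).const_mul C
  rw [mul_zero] at h3
  have h4 := ENNReal.tendsto_ofReal h3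
  rwa [ENNReal.ofReal_zero] at h4

theorem main (hMEAS : MEAS) : MINK := by
  intro 𝒜 _ _ _ a U E C k ε hUo hUb hE hk hε hsp hb hv
  have hdc : Continuous fun z : ℂ => infDist z E := continuous_infDist_pt E
  have hSm : ∀ j : ℕ, MeasurableSet {z : ℂ | infDist z E ≤ (1 / 2 : ℝ) ^ j} := fun j =>
    measurableSet_le hdc.measurable measurable_const
  have hvj : ∀ j : ℕ, volume {z : ℂ | z ∈ U ∧ infDist z E ≤ (1 / 2 : ℝ) ^ j} ≤
      ENNReal.ofReal (C * ((1 / 2 : ℝ) ^ j) ^ (k + ε)) := fun j =>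
    hv _ (by positivity) (pow_le_one₀ (by norm_num) (by norm_num))
  -- the null set
  have hnull : volume {z : ℂ | z ∈ U ∧ infDist z E ≤ 0} = 0 := by
    refine le_antisymm (ge_of_tendsto' (lim0 C (k + ε) (by linarith)) fun j => ?_) zero_le
    refine (measure_mono fun z hz => ?_).trans (hvj j)
    exact ⟨hz.1, hz.2.trans (by positivity)⟩
  refine ⟨?_, ?_⟩
  · refine measure_mono_null (fun z hz => ?_) hnull
    refine ⟨hz.2, ?_⟩
    rw [infDist_zero_of_mem (hsp hz)]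
  -- measurability
  have hmeas : AEStronglyMeasurable (fun z : ℂ => Real.posLog ‖resolvent a z‖)
      (volume.restrict U) := by
    have h1 : Measurable fun z : ℂ => ‖resolvent a z‖ := (hMEAS 𝒜 a).norm.measurable
    exact (Real.continuous_posLog.measurable.comp h1).aestronglyMeasurable
  refine ⟨hmeas, ?_⟩
  rw [hasFiniteIntegral_iff_ofReal (Filter.Eventually.of_forall fun z => Real.posLog_nonneg)]
  -- pointwise bound
  have hUm : MeasurableSet U := hUo.measurableSet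
  have hae : ∀ᵐ z ∂(volume.restrict U), ENNReal.ofReal (Real.posLog ‖resolvent a z‖) ≤
      ENNReal.ofReal |C| * (1 + ∑' j : ℕ, ({z : ℂ | infDist z E ≤ (1 / 2 : ℝ) ^ j}.indicator
        (fun _ => ENNReal.ofReal (wt k j)) z)) := by
    have h1 : ∀ᵐ z ∂(volume.restrict U), z ∈ U := ae_restrict_mem hUm
    have h2 : ∀ᵐ z ∂(volume.restrict U), ¬ (z ∈ U ∧ infDist z E ≤ 0) := by
      refine ae_restrict_of_ae ?_
      rw [ae_iff]
      simpa using hnull
    filter_upwards [h1, h2] with z hz1 hz2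
    have hd : 0 < infDist z E := by
      by_contra hcon
      exact hz2 ⟨hz1, not_lt.1 hcon⟩
    have hzE : z ∉ E := fun h => hd.ne' (infDist_zero_of_mem h)
    have h3 : Real.posLog ‖resolvent a z‖ ≤ |C| * infDist z E ^ (-k) :=
      (Real.posLog_le_posLog (norm_nonneg _) (hb z hz1 hzE)).trans
        (real_bound C _ (by positivity))
    refine (ENNReal.ofReal_le_ofReal h3).trans ?_
    rw [ENNReal.ofReal_mul (abs_nonneg C)]
    refine mul_le_mul_right ?_ _
    have h4 := wt_bound k hk (infDist z E) hd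
    refine h4.trans (le_of_eq ?_)
    congr 1
  refine lt_of_le_of_lt (lintegral_mono_ae hae) ?_
  have hterm : ∀ j : ℕ, Measurable fun z : ℂ => {z : ℂ | infDist z E ≤ (1 / 2 : ℝ) ^ j}.indicator
        (fun _ => ENNReal.ofReal (wt k j)) z := fun j => measurable_const.indicator (hSm j)
  have hsumm : Measurable fun z : ℂ => ∑' j : ℕ, ({z : ℂ | infDist z E ≤ (1 / 2 : ℝ) ^ j}.indicator
        (fun _ => ENNReal.ofReal (wt k j)) z) := Measurable.tsum hterm
  have hadd : Measurable fun z : ℂ => 1 + ∑' j : ℕ,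
      ({z : ℂ | infDist z E ≤ (1 / 2 : ℝ) ^ j}.indicator
        (fun _ => ENNReal.ofReal (wt k j)) z) := measurable_const.add hsumm
  rw [lintegral_const_mul _ hadd, lintegral_add_left measurable_const,
    lintegral_const, one_mul, Measure.restrict_apply_univ,
    lintegral_tsum fun j => (hterm j).aemeasurable]
  refine ENNReal.mul_lt_top ENNReal.ofReal_lt_top (ENNReal.add_lt_top.2 ⟨hUb.measure_lt_top, ?_⟩)
  have hj : ∀ j : ℕ, (∫⁻ z in U, {z : ℂ | infDist z E ≤ (1 / 2 : ℝ) ^ j}.indicator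
      (fun _ => ENNReal.ofReal (wt k j)) z) ≤
      ENNReal.ofReal (|C| * ((1 / 2 : ℝ) ^ (-k) * ((1 / 2 : ℝ) ^ ε) ^ j)) := by
    intro j
    rw [lintegral_indicator_const (hSm j), Measure.restrict_apply (hSm j)]
    have h5 : volume ({z : ℂ | infDist z E ≤ (1 / 2 : ℝ) ^ j} ∩ U) ≤
        ENNReal.ofReal (|C| * ((1 / 2 : ℝ) ^ j) ^ (k + ε)) := by
      refine (measure_mono fun z hz => ?_).trans ((hvj j).trans (ENNReal.ofReal_le_ofReal ?_))
      · exact ⟨hz.2, hz.1⟩
      · exact mul_le_mul_of_nonneg_right (le_abs_self C) (by positivity)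
    refine (mul_le_mul_right h5 _).trans ?_
    rw [← ENNReal.ofReal_mul (wt_nonneg k j), ← wt_mul k ε j]
    refine ENNReal.ofReal_le_ofReal (le_of_eq ?_)
    ring
  refine lt_of_le_of_lt (ENNReal.tsum_le_tsum hj) ?_
  have hq : (0 : ℝ) < 1 / 2 := by norm_num
  have h6 : (1 / 2 : ℝ) ^ ε < 1 := Real.rpow_lt_one hq.le (by norm_num) hε
  have h7 : Summable fun j : ℕ => |C| * ((1 / 2 : ℝ) ^ (-k) * ((1 / 2 : ℝ) ^ ε) ^ j) :=
    ((summable_geometric_of_lt_one (by positivity) h6).mul_left _).mul_left _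
  exact h7.tsum_ofReal_lt_top

end Pool.Agent.W427.HY.MINK
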